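import Pool.Agent.N658.FF.Stm

/-!
# Project FF: the detectability lemma
-/

set_option autoImplicit false

open scoped BigOperators InnerProductSpace Classical

noncomputable section

namespace Pool.Agent.N364.FF

open Pool.Agent.N658.FF

variable {E : Type} [NormedAddCommGroup E] [InnerProductSpace ℂ E] [FiniteDimensional ℂ E]
variable {T : Type}

theorem pythag (K : Submodule ℂ E) (v : E) : ‖v - pr K v‖ ^ 2 = ‖v‖ ^ 2 - ‖pr K v‖ ^ 2 := by
  have h := Submodule.norm_sq_eq_add_norm_sq_starProjection v K
  rw [Submodule.starProjection_orthogonal_val] at h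
  linarith

theorem pr_mem_norm (K : Submodule ℂ E) (v : E) : ‖pr K v‖ ≤ ‖v‖ :=
  Submodule.norm_starProjection_apply_le K v

/-- the product of the projections -/
def PL (V : T → Submodule ℂ E) (l : List T) : E →L[ℂ] E := (l.map fun x => pr (V x)).prod

theorem PL_cons (V : T → Submodule ℂ E) (a : T) (t : List T) (φ : E) :
    PL V (a :: t) φ = pr (V a) (PL V t φ) := by
  unfold PL
  rw [List.map_cons, List.prod_cons]
  rfl

theorem PL_nil (V : T → Submodule ℂ E) (φ : E) : PL V [] φ = φ := rfl

/-- the losses -/
def FL (V : T → Submodule ℂ E) (φ : E) : List T → T → ℝ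
  | [] => 0
  | a :: t => Function.update (FL V φ t) a ‖PL V t φ - pr (V a) (PL V t φ)‖

theorem FL_notMem (V : T → Submodule ℂ E) (φ : E) (l : List T) (y : T) (hy : y ∉ l) :
    FL V φ l y = 0 := by
  induction l with
  | nil => rfl
  | cons a t ih =>
    rw [List.mem_cons, not_or] at hy
    unfold FL
    rw [Function.update_of_ne hy.1]
    exact ih hy.2

theorem FL_nonneg (V : T → Submodule ℂ E) (φ : E) (l : List T) (y : T) : 0 ≤ FL V φ l y := by
  induction l with
  | nil => exact le_rfl
  | cons a t ih =>
    unfold FL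
    by_cases h : y = a
    · rw [h, Function.update_self]
      exact norm_nonneg _
    · rw [Function.update_of_ne h]
      exact ih

variable [Fintype T]

theorem FL_sum (V : T → Submodule ℂ E) (φ : E) (l : List T) (hl : l.Nodup) :
    ∑ y, FL V φ l y ^ 2 = ‖φ‖ ^ 2 - ‖PL V l φ‖ ^ 2 := by
  induction l with
  | nil =>
    rw [PL_nil, sub_self]
    exact Finset.sum_eq_zero fun y _ => by
      change (0 : ℝ) ^ 2 = 0
      norm_num
  | cons a t ih =>
    rw [List.nodup_cons] at hl
    have h1 := ih hl.2
    have h2 : ∀ y, FL V φ (a :: t) y ^ 2 = (if y = a then ‖PL V t φ - pr (V a) (PL V t φ)‖ ^ 2 else 0) +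
        FL V φ t y ^ 2 := by
      intro y
      by_cases h : y = a
      · rw [if_pos h, h, FL_notMem V φ t a hl.1]
        unfold FL
        rw [Function.update_self]
        ring
      · rw [if_neg h, zero_add]
        conv_lhs => unfold FL
        rw [Function.update_of_ne h]
    simp_rw [h2]
    rw [Finset.sum_add_distrib, Finset.sum_ite_eq' Finset.univ a, if_pos (Finset.mem_univ a), h1,
      pythag, PL_cons]
    ring

theorem key (V : T → Submodule ℂ E) (adj : T → T → Prop) (g : ℕ) (hL : Loc V adj g) (φ : E)
    (l : List T) (hl : l.Nodup) : ∀ x ∈ l,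
    ‖PL V l φ - pr (V x) (PL V l φ)‖ ≤ ∑ y ∈ Finset.univ.filter (fun y => adj x y), FL V φ l y := by
  induction l with
  | nil =>
    intro x hx
    simp at hx
  | cons a t ih =>
    intro x hx
    rw [List.nodup_cons] at hl
    rw [PL_cons]
    rcases List.mem_cons.1 hx with h | h
    · rw [h]
      have h1 : pr (V a) (pr (V a) (PL V t φ)) = pr (V a) (PL V t φ) :=
        Submodule.starProjection_eq_self_iff.2 (Submodule.starProjection_apply_mem _ _)
      rw [h1, sub_self, norm_zero]
      exact Finset.sum_nonneg fun y _ => FL_nonneg V φ _ y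
    · have h1 := ih hl.2 x h
      have hxa : x ≠ a := fun hc => hl.1 (hc ▸ h)
      set v := PL V t φ with hv
      by_cases hadj : adj x a
      · have h2 : pr (V a) v - pr (V x) (pr (V a) v) =
            (v - pr (V x) v) - ((v - pr (V a) v) - pr (V x) (v - pr (V a) v)) := by
          rw [map_sub]
          abel
        have h3 : ‖(v - pr (V a) v) - pr (V x) (v - pr (V a) v)‖ ≤ ‖v - pr (V a) v‖ := by
          have h4 := pythag (V x) (v - pr (V a) v)
          refine le_of_sq_le_sq ?_ (norm_nonneg _)
          rw [h4]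
          nlinarith [sq_nonneg ‖pr (V x) (v - pr (V a) v)‖]
        have h4 : ∑ y ∈ Finset.univ.filter (fun y => adj x y), FL V φ (a :: t) y =
            ‖v - pr (V a) v‖ + ∑ y ∈ Finset.univ.filter (fun y => adj x y), FL V φ t y := by
          have h5 : ∀ y, FL V φ (a :: t) y = (if y = a then ‖v - pr (V a) v‖ else 0) +
              FL V φ t y := by
            intro y
            by_cases h : y = a
            · rw [if_pos h, h, FL_notMem V φ t a hl.1]
              unfold FL
              rw [Function.update_self, add_zero]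
            · rw [if_neg h, zero_add]
              conv_lhs => unfold FL
              rw [Function.update_of_ne h]
          simp_rw [h5]
          rw [Finset.sum_add_distrib, Finset.sum_ite_eq' _ a, if_pos (by simp [hadj])]
        rw [h4, h2]
        calc ‖(v - pr (V x) v) - ((v - pr (V a) v) - pr (V x) (v - pr (V a) v))‖
            ≤ ‖v - pr (V x) v‖ + ‖(v - pr (V a) v) - pr (V x) (v - pr (V a) v)‖ := norm_sub_le _ _
          _ ≤ _ := by linarith
      · have h2 : pr (V x) (pr (V a) v) = pr (V a) (pr (V x) v) := by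
          have h3 := hL.comm x a hadj
          exact congrArg (fun f : E →L[ℂ] E => f v) h3
        have h3 : pr (V a) v - pr (V x) (pr (V a) v) = pr (V a) (v - pr (V x) v) := by
          rw [h2, map_sub]
        rw [h3]
        refine (pr_mem_norm _ _).trans (h1.trans (le_of_eq ?_))
        refine Finset.sum_congr rfl fun y hy => ?_
        have hya : y ≠ a := by
          intro hc
          rw [Finset.mem_filter] at hy
          exact hadj (hc ▸ hy.2)
        conv_rhs => unfold FL
        rw [Function.update_of_ne hya]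

theorem PL_orth (V : T → Submodule ℂ E) (A : Finset T) (l : List T) (hl : ∀ x ∈ l, x ∈ A) (φ : E)
    (hφ : φ ∈ (G V A)ᗮ) : PL V l φ ∈ (G V A)ᗮ := by
  induction l with
  | nil => exact hφ
  | cons a t ih =>
    have h1 := ih fun x hx => hl x (List.mem_cons_of_mem a hx)
    rw [PL_cons, Submodule.mem_orthogonal]
    intro w hw
    have hwa : w ∈ V a := by
      have h2 : G V A ≤ V a := iInf₂_le a (hl a List.mem_cons_self)
      exact h2 hw
    rw [← Submodule.inner_starProjection_left_eq_right, Submodule.starProjection_eq_self_iff.2 hwa]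
    exact (Submodule.mem_orthogonal _ _).1 h1 w hw

end Pool.Agent.N364.FF

namespace Pool.Agent.N364.FF

open Pool.Agent.N658.FF

theorem dl : StmDL := by
  intro E _ _ _ T _ _ V adj g Δ hL hΔ hgap A l hl hlA φ hφ
  have hg : (1 : ℝ) ≤ g := by exact_mod_cast hL.pos
  change ‖PL V l φ‖ ^ 2 ≤ _
  have h1 := hgap A (PL V l φ) (PL_orth V A l (fun x hx => (hlA x).1 hx) φ hφ)
  have h2 : ∑ x ∈ A, ‖PL V l φ - pr (V x) (PL V l φ)‖ ^ 2 ≤ (g : ℝ) ^ 2 * ∑ y, FL V φ l y ^ 2 := by
    calc ∑ x ∈ A, ‖PL V l φ - pr (V x) (PL V l φ)‖ ^ 2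
        ≤ ∑ x ∈ A, (∑ y ∈ Finset.univ.filter (fun y => adj x y), FL V φ l y) ^ 2 := by
          refine Finset.sum_le_sum fun x hx => ?_
          have h3 := key V adj g hL φ l hl x ((hlA x).2 hx)
          gcongr
      _ ≤ ∑ x ∈ A, (g : ℝ) * ∑ y ∈ Finset.univ.filter (fun y => adj x y), FL V φ l y ^ 2 := by
          refine Finset.sum_le_sum fun x _ => ?_
          have h3 := sq_sum_le_card_mul_sum_sq (s := Finset.univ.filter (fun y => adj x y))
            (f := FL V φ l)
          refine h3.trans ?_
          have h4 : (((Finset.univ.filter (fun y => adj x y)).card : ℕ) : ℝ) ≤ g := by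
            exact_mod_cast hL.deg x
          have h5 : 0 ≤ ∑ y ∈ Finset.univ.filter (fun y => adj x y), FL V φ l y ^ 2 :=
            Finset.sum_nonneg fun y _ => sq_nonneg _
          gcongr
      _ ≤ ∑ x, (g : ℝ) * ∑ y ∈ Finset.univ.filter (fun y => adj x y), FL V φ l y ^ 2 := by
          refine Finset.sum_le_sum_of_subset_of_nonneg (Finset.subset_univ _) fun x _ _ => ?_
          have h5 : 0 ≤ ∑ y ∈ Finset.univ.filter (fun y => adj x y), FL V φ l y ^ 2 :=
            Finset.sum_nonneg fun y _ => sq_nonneg _
          positivity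
      _ = (g : ℝ) * ∑ y, ∑ x ∈ Finset.univ.filter (fun x => adj x y), FL V φ l y ^ 2 := by
          rw [← Finset.mul_sum]
          congr 1
          simp_rw [Finset.sum_filter]
          exact Finset.sum_comm
      _ ≤ (g : ℝ) * ∑ y, (g : ℝ) * FL V φ l y ^ 2 := by
          gcongr with y _
          rw [Finset.sum_const, nsmul_eq_mul]
          have h4 : (((Finset.univ.filter (fun x => adj x y)).card : ℕ) : ℝ) ≤ g := by
            have h5 : (Finset.univ.filter (fun x => adj x y)) ⊆
                (Finset.univ.filter (fun x => adj y x)) := by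
              intro x hx
              rw [Finset.mem_filter] at hx ⊢
              exact ⟨hx.1, hL.symm x y hx.2⟩
            exact_mod_cast (Finset.card_le_card h5).trans (hL.deg y)
          gcongr
      _ = (g : ℝ) ^ 2 * ∑ y, FL V φ l y ^ 2 := by
          rw [← Finset.mul_sum]
          ring
  rw [FL_sum V φ l hl] at h2
  rw [div_mul_eq_mul_div, le_div_iff₀ (by positivity)]
  nlinarith

end Pool.Agent.N364.FF
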